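import Pool.Agent.H741.RS.Stm

/-!
The adjoint of a linear combination of unitary maps (project RS of helper741).
-/

set_option autoImplicit false
open scoped ComplexConjugate

namespace Pool.Agent.H56.RS

open Pool.Agent.H741.RS

/-- the linear form with the values `hp z w` -/
noncomputable def lf {n : ℕ} (w : V n) : MvPolynomial (Fin n) ℂ :=
  ∑ i, MvPolynomial.C (conj (w i)) * MvPolynomial.X i

theorem ev_lf {n : ℕ} (w z : V n) : ev (lf w) z = hp z w := by
  rw [ev, lf, map_sum, hp, PiLp.inner_apply]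
  refine Finset.sum_congr rfl fun i _ => ?_
  rw [map_mul, MvPolynomial.eval_C, MvPolynomial.eval_X, RCLike.inner_apply, mul_comm]

theorem ev_lf_pow {n : ℕ} (w z : V n) (j : ℕ) : ev (lf w ^ j) z = hp z w ^ j := by
  rw [← ev_lf, ev, ev, map_pow]

theorem lf_deg {n : ℕ} (w : V n) : (lf w).totalDegree ≤ 1 := by
  refine (MvPolynomial.totalDegree_finsetSum _ _).trans (Finset.sup_le fun i _ => ?_)
  refine (MvPolynomial.totalDegree_mul _ _).trans ?_
  rw [MvPolynomial.totalDegree_C, zero_add]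
  exact (MvPolynomial.totalDegree_X i).le

theorem lf_pow_deg {n : ℕ} (w : V n) (j : ℕ) : (lf w ^ j).totalDegree ≤ j := by
  refine (MvPolynomial.totalDegree_pow _ _).trans ?_
  have := Nat.mul_le_mul_left j (lf_deg w)
  omega

theorem hp_iso {n : ℕ} (U : V n ≃ₗᵢ[ℂ] V n) (z w : V n) : hp (U z) w = hp z (U.symm w) := by
  rw [hp, hp]
  conv_lhs => rw [← U.apply_symm_apply w]
  exact U.inner_map_map _ _

theorem conj_hp {n : ℕ} (z w : V n) : conj (hp z w) = hp w z := by
  rw [hp, hp, inner_conj_symm]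

/-- the claim for homogeneous polynomials -/
theorem hom (h1 : S_POW) {n k : ℕ} {G : Subgroup (V n ≃ₗᵢ[ℂ] V n)} [Fintype G] {U : V n ≃ₗᵢ[ℂ] V n}
    {c : G → ℂ} (h : Comb k G U c) {j : ℕ} (hj : j ≤ k) {P : MvPolynomial (Fin n) ℂ}
    (hP : P.IsHomogeneous j) (z : V n) :
    ev P (U.symm z) = ∑ g : G, conj (c g) * ev P (g.1.symm z) := by
  obtain ⟨m, w, d, hd⟩ := h1 n j P hP
  have h2 : ∀ v : V n, hp (U.symm z) v ^ j = ∑ g : G, conj (c g) * hp (g.1.symm z) v ^ j := by
    intro v
    have h3 := h (lf z ^ j) ((lf_pow_deg z j).trans hj) v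
    simp only [ev_lf_pow] at h3
    have h4 := congrArg conj h3
    rw [hp_iso, map_pow, conj_hp, map_sum] at h4
    rw [h4]
    refine Finset.sum_congr rfl fun g _ => ?_
    rw [map_mul, map_pow, hp_iso, conj_hp]
  rw [hd]
  simp only [h2, hd, Finset.mul_sum]
  rw [Finset.sum_comm]
  refine Finset.sum_congr rfl fun g _ => Finset.sum_congr rfl fun i _ => ?_
  ring

theorem t_ADJ (h1 : S_POW) : S_ADJ := by
  intro n k G _ U c h P hP z
  have h2 : ∀ v : V n, ev P v =
      ∑ j ∈ Finset.range (P.totalDegree + 1), ev (MvPolynomial.homogeneousComponent j P) v := by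
    intro v
    conv_lhs => rw [← MvPolynomial.sum_homogeneousComponent P]
    rw [ev, map_sum]
    rfl
  rw [h2]
  simp only [h2, Finset.mul_sum]
  rw [Finset.sum_comm]
  refine Finset.sum_congr rfl fun j hj => ?_
  have hj' : j ≤ k := (Nat.lt_succ_iff.1 (Finset.mem_range.1 hj)).trans hP
  exact hom h1 h hj' (MvPolynomial.homogeneousComponent_isHomogeneous j P) z

end Pool.Agent.H56.RS
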